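import Pool.Agent.Helper91.GU.StD

/-!
# GU module D5a: constants times one entry
-/

set_option autoImplicit false

namespace Pool.Agent.Helper94.GU

universe u

open Polynomial IsLocalRing
open Pool.Agent.Helper91.GU

/-- the successive choice in a punctured Noetherian algebra -/
theorem aux_choice (hD1 : StD1.{u}) (hD2 : StD2.{u}) (L E : Type u) [CommRing L] [IsLocalRing L]
    [CommRing E] [Algebra L E] [IsNoetherianRing E]
    (hE : (maximalIdeal L).map (algebraMap L E) = ⊤) (ψ : ℕ → E) (k : ℕ) :
    ∃ h : ℕ → L, (∀ l, h l ∈ maximalIdeal L) ∧ ∀ P : Ideal E, P.IsPrime →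
      (∀ l < k, ψ l + algebraMap L E (h l) ∈ P) → (k : ℕ∞) ≤ P.height := by
  induction k with
  | zero =>
    exact ⟨fun _ => 0, fun _ => Ideal.zero_mem _, fun P _ _ => by simp⟩
  | succ k ih =>
    obtain ⟨h, hm, hh⟩ := ih
    set J : Ideal E := Ideal.span ((fun l => ψ l + algebraMap L E (h l)) '' {l | l < k}) with hJ
    obtain ⟨a, ha, ha2⟩ := hD1 L E J.minimalPrimes
      (Ideal.finite_minimalPrimes_of_isNoetherianRing E J)
      (by
        intro P hP
        refine ⟨hP.1.1, ?_⟩
        intro hc
        apply hP.1.1.ne_top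
        rw [eq_top_iff, ← hE, Ideal.map_le_iff_le_comap, hc]) (ψ k)
    have hJP : ∀ P : Ideal E, (∀ l < k, ψ l + algebraMap L E (h l) ∈ P) → J ≤ P := by
      intro P hP
      rw [hJ, Ideal.span_le]
      rintro _ ⟨l, hl, rfl⟩
      exact hP l hl
    have hJP2 : ∀ P : Ideal E, J ≤ P → ∀ l < k, ψ l + algebraMap L E (h l) ∈ P := by
      intro P hP l hl
      exact hP (Ideal.subset_span ⟨l, hl, rfl⟩)
    refine ⟨Function.update h k (-a), ?_, ?_⟩
    · intro l
      by_cases hl : l = k
      · rw [hl, Function.update_self]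
        exact neg_mem ha
      · rw [Function.update_of_ne hl]
        exact hm l
    · intro P hP hPl
      have h1 : J ≤ P := by
        apply hJP
        intro l hl
        have h2 := hPl l (Nat.lt_succ_of_lt hl)
        rwa [Function.update_of_ne (ne_of_lt hl)] at h2
      have h3 : ψ k - algebraMap L E a ∈ P := by
        have h4 := hPl k (Nat.lt_succ_self k)
        rw [Function.update_self, map_neg] at h4
        rwa [sub_eq_add_neg]
      exact hD2 E J (ψ k - algebraMap L E a) k ha2
        (fun Q hQ hJQ => hh Q hQ (hJP2 Q hJQ)) P hP h1 h3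

theorem hD5a (hD1 : StD1.{u}) (hD2 : StD2.{u}) : StD5a.{u} := by
  intro L _ _ _ r g u hg hu
  have hE : (maximalIdeal L).map (algebraMap L (Localization.Away g)) = ⊤ := by
    rw [IsScalarTower.algebraMap_eq L L[X] (Localization.Away g), ← Ideal.map_map,
      Polynomial.algebraMap_eq]
    apply Ideal.eq_top_of_isUnit_mem _ (Ideal.mem_map_of_mem _ hg)
    exact IsLocalization.Away.algebraMap_isUnit g
  have : IsNoetherianRing (Localization.Away g) :=
    IsLocalization.isNoetherianRing (Submonoid.powers g) _ inferInstance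
  let ψ : ℕ → Localization.Away g := fun l =>
    if hl : l < r then algebraMap L[X] (Localization.Away g) (u ⟨l, hl⟩) *
      IsLocalization.Away.invSelf g else 0
  obtain ⟨h, hm, hh⟩ := aux_choice hD1 hD2 L (Localization.Away g) hE ψ r
  refine ⟨fun l => h l, fun l => hm l, ?_⟩
  intro P hP hPu
  have hgP : g ∉ P := by
    intro hgP
    apply hP.ne_top
    rw [eq_top_iff, ← hu, Ideal.span_le]
    intro x hx
    rcases hx with hx | ⟨l, rfl⟩
    · rw [hx]; exact hgP
    · have h1 := hPu l
      have h2 : C (h l) * g ∈ P := P.mul_mem_left _ hgP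
      have h3 := P.sub_mem h1 h2
      rwa [add_sub_cancel_right] at h3
  have hd : Disjoint ((Submonoid.powers g : Submonoid L[X]) : Set L[X]) (P : Set L[X]) := by
    rwa [Ideal.disjoint_powers_iff_notMem_of_isPrime g]
  rw [← IsLocalization.height_map_of_disjoint (S := Localization.Away g) (Submonoid.powers g) P hd]
  have hPm : (P.map (algebraMap L[X] (Localization.Away g))).IsPrime :=
    IsLocalization.isPrime_of_isPrime_disjoint (Submonoid.powers g) _ P hP hd
  apply hh _ hPm
  intro l hl
  have h1 : algebraMap L[X] (Localization.Away g) (u ⟨l, hl⟩ + C (h l) * g) ∈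
      P.map (algebraMap L[X] (Localization.Away g)) := Ideal.mem_map_of_mem _ (hPu ⟨l, hl⟩)
  have h2 : ψ l + algebraMap L (Localization.Away g) (h l) =
      IsLocalization.Away.invSelf g *
        algebraMap L[X] (Localization.Away g) (u ⟨l, hl⟩ + C (h l) * g) := by
    simp only [ψ, hl, dif_pos]
    have h3 : algebraMap L[X] (Localization.Away g) g * IsLocalization.Away.invSelf g = 1 :=
      IsLocalization.Away.mul_invSelf g
    rw [map_add, map_mul, IsScalarTower.algebraMap_apply L L[X] (Localization.Away g),
      Polynomial.algebraMap_apply, Algebra.algebraMap_self, RingHom.id_apply]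
    linear_combination (-(algebraMap L[X] (Localization.Away g)) (C (h l))) * h3
  rw [h2]
  exact Ideal.mul_mem_left _ _ h1

end Pool.Agent.Helper94.GU
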