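import Pool.Agent.Helper91.GU.StF

/-!
# GU module F3: the ideal `(G, h)`
-/

set_option autoImplicit false

namespace Pool.Agent.Helper94.GU

universe u

open Polynomial
open Pool.Agent.Helper91.GU

theorem aux_dvd {R : Type u} [CommRing R] (G : R) (n : ℕ) : G ∣ 1 - (1 - G) ^ n := by
  have h1 : (1 : R) - (1 - G) ∣ 1 ^ n - (1 - G) ^ n := sub_dvd_pow_sub_pow 1 (1 - G) n
  rwa [sub_sub_cancel, one_pow] at h1

/-- for large `n` the class of `g^n X^n` comes from `L` -/
theorem aux_const {L B : Type u} [CommRing L] [CommRing B] (φ : L →+* B) (x : B) (k₀ : ℕ)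
    (a : ℕ → L) (hY : ∀ k, k₀ ≤ k → φ (a k) * x ^ k = 1) (κ : ℕ) (g : L) (hκ : 1 ≤ κ)
    (h1 : φ g * x ^ κ = 1) (n : ℕ) (hn : k₀ ≤ n) :
    ∃ e : L, φ e = φ g ^ n * x ^ n := by
  rcases Nat.lt_or_ge κ 2 with hκ2 | hκ2
  · have : κ = 1 := by omega
    subst this
    refine ⟨1, ?_⟩
    rw [pow_one] at h1
    rw [← mul_pow, h1, one_pow, map_one]
  · have h2 : k₀ ≤ (κ - 1) * n := by
      calc k₀ ≤ 1 * n := by omega
        _ ≤ (κ - 1) * n := Nat.mul_le_mul_right _ (by omega)
    have h3 := hY _ h2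
    refine ⟨a ((κ - 1) * n), ?_⟩
    have h4 : φ g ^ n * x ^ (κ * n) = 1 := by
      rw [pow_mul, ← mul_pow, h1, one_pow]
    have h5 : κ * n = (κ - 1) * n + n := by
      obtain ⟨κ', rfl⟩ : ∃ κ', κ = κ' + 1 := ⟨κ - 1, by omega⟩
      rw [Nat.add_sub_cancel]
      ring
    rw [h5, pow_add] at h4
    calc φ (a ((κ - 1) * n))
        = φ (a ((κ - 1) * n)) * (φ g ^ n * (x ^ ((κ - 1) * n) * x ^ n)) := by rw [h4, mul_one]
      _ = (φ (a ((κ - 1) * n)) * x ^ ((κ - 1) * n)) * (φ g ^ n * x ^ n) := by ring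
      _ = φ g ^ n * x ^ n := by rw [h3, one_mul]

/-- the abstract form of F3 -/
theorem abs_F3 {L B : Type u} [CommRing L] [CommRing B] (Φ : L[X] →+* B[X]) (φ : L →+* B) (x : B)
    (J : Ideal L) (hC : ∀ r, Φ (C r) = C (φ r)) (hX : Φ X = C x * X)
    (he : ∀ f, Φ f = 0 ↔ f ∈ J.map (C : L →+* L[X]))
    (hgg : ∀ P : B[X], ∃ M₀ : ℕ, ∀ M, M₀ ≤ M → ∃ f : L[X], Φ (X ^ M * f) = X ^ M * P)
    (s : ℕ) (b : Fin s → L) (g : L) (k₀ : ℕ)
    (hcon : ∀ n, k₀ ≤ n → ∃ e : L, φ e = φ g ^ n * x ^ n)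
    (hb : ∀ j, φ (b j) = 0) (hgJ : ∀ j ∈ J, g * j ∈ Ideal.span (Set.range b))
    (G q' : L[X]) (hG1 : G = 1 - C g * X * q') (N : ℕ) :
    (∀ f : L[X], f ∈ idl (crow G b N) ↔ Φ G ∣ Φ f) ∧
    (∀ P : B[X], ∃ f : L[X], Φ G ∣ Φ f - P) := by
  have hclaim : ∀ P : B[X], ∃ n₀ : ℕ, ∀ n, n₀ ≤ n →
      ∃ f : L[X], Φ f = Φ (C g * X * q') ^ n * P := by
    intro P
    obtain ⟨M₀, hM⟩ := hgg P
    refine ⟨max M₀ k₀, fun n hn => ?_⟩
    obtain ⟨f, hf⟩ := hM n ((le_max_left _ _).trans hn)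
    obtain ⟨e, he⟩ := hcon n ((le_max_right _ _).trans hn)
    refine ⟨C e * q' ^ n * (X ^ n * f), ?_⟩
    have h2 : Φ (C g * X * q') = C (φ g) * (C x * X) * Φ q' := by
      rw [map_mul, map_mul, hX, hC]
    rw [map_mul, map_mul, hf, map_pow, hC, he, h2, C_mul, C_pow, C_pow]
    ring
  have hrho : C g * X * q' = 1 - G := by rw [hG1]; ring
  have hdv : ∀ n : ℕ, Φ G ∣ 1 - Φ (C g * X * q') ^ n := by
    intro n
    rw [hrho, map_sub, map_one]
    exact aux_dvd _ n
  have hdvA : ∀ n : ℕ, G ∣ 1 - (C g * X * q') ^ n := by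
    intro n
    rw [hrho]
    exact aux_dvd _ n
  have hidl : idl (crow G b N) =
      Ideal.span (insert G (Set.range fun j => C (b j) * X ^ N)) := by
    unfold idl crow
    rw [Fin.range_cons]
  refine ⟨?_, ?_⟩
  · intro f
    constructor
    · intro hf
      rw [hidl] at hf
      have h1 : Ideal.span (insert G (Set.range fun j => C (b j) * X ^ N)) ≤
          (Ideal.span {Φ G}).comap Φ := by
        rw [Ideal.span_le]
        rintro x (rfl | ⟨j, rfl⟩)
        · show Φ x ∈ Ideal.span {Φ x}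
          exact Ideal.mem_span_singleton_self _
        · show Φ (C (b j) * X ^ N) ∈ Ideal.span {Φ G}
          rw [map_mul, hC, hb, C_0, zero_mul]
          exact Ideal.zero_mem _
      exact Ideal.mem_span_singleton.1 (Ideal.mem_comap.1 (h1 hf))
    · rintro ⟨P, hP⟩
      obtain ⟨n₀, hn₀⟩ := hclaim P
      obtain ⟨n, hn1, hn2, hn3⟩ : ∃ n : ℕ, n₀ ≤ n ∧ N ≤ n ∧ 1 ≤ n :=
        ⟨n₀ + N + 1, by omega, by omega, by omega⟩
      obtain ⟨f', hf'⟩ := hn₀ n hn1
      have h1 : Φ ((C g * X * q') ^ n * f - G * f') = 0 := by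
        rw [map_sub, map_mul, map_mul, hf', hP, map_pow]
        ring
      rw [he] at h1
      -- `C g * w ∈ (b) A` for `w ∈ J A`
      have h2 : ∀ w ∈ J.map (C : L →+* L[X]),
          C g * w ∈ (Ideal.span (Set.range b)).map (C : L →+* L[X]) := by
        intro w hw
        have h3 : J.map (C : L →+* L[X]) ≤
            ((Ideal.span (Set.range b)).map (C : L →+* L[X])).colon {C g} := by
          rw [Ideal.map_le_iff_le_comap]
          intro j hj
          rw [Ideal.mem_comap, Submodule.mem_colon_singleton, smul_eq_mul, mul_comm, ← C_mul]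
          exact Ideal.mem_map_of_mem _ (hgJ j hj)
        have h4 := h3 hw
        rwa [Submodule.mem_colon_singleton, smul_eq_mul, mul_comm] at h4
      -- `X^n (b) A ⊂ (h)`
      have h5 : ∀ w ∈ (Ideal.span (Set.range b)).map (C : L →+* L[X]),
          X ^ n * w ∈ Ideal.span (insert G (Set.range fun j => C (b j) * X ^ N)) := by
        intro w hw
        have h6 : (Ideal.span (Set.range b)).map (C : L →+* L[X]) ≤
            (Ideal.span (insert G (Set.range fun j => C (b j) * X ^ N))).colon {X ^ n} := by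
          rw [Ideal.map_le_iff_le_comap, Ideal.span_le]
          rintro _ ⟨j, rfl⟩
          rw [SetLike.mem_coe, Ideal.mem_comap, Submodule.mem_colon_singleton, smul_eq_mul]
          have h7 : C (b j) * X ^ n = X ^ (n - N) * (C (b j) * X ^ N) := by
            rw [mul_left_comm, ← pow_add, Nat.sub_add_cancel hn2]
          rw [h7]
          exact Ideal.mul_mem_left _ _ (Ideal.subset_span (Set.mem_insert_of_mem _ ⟨j, rfl⟩))
        have h4 := h6 hw
        rwa [Submodule.mem_colon_singleton, smul_eq_mul, mul_comm] at h4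
      have h8 : (C g * X * q') ^ n * ((C g * X * q') ^ n * f - G * f') ∈
          Ideal.span (insert G (Set.range fun j => C (b j) * X ^ N)) := by
        have h9 := h5 _ (h2 _ h1)
        have h10 : (C g * X * q') ^ n * ((C g * X * q') ^ n * f - G * f') =
            (C g ^ (n - 1) * q' ^ n) *
              (X ^ n * (C g * ((C g * X * q') ^ n * f - G * f'))) := by
          have h11 : (C g : L[X]) ^ n = C g ^ (n - 1) * C g := by
            rw [← pow_succ, Nat.sub_add_cancel hn3]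
          calc (C g * X * q') ^ n * ((C g * X * q') ^ n * f - G * f')
              = C g ^ n * X ^ n * q' ^ n * ((C g * X * q') ^ n * f - G * f') := by
                rw [mul_pow, mul_pow]
            _ = _ := by rw [h11]; ring
        rw [h10]
        exact Ideal.mul_mem_left _ _ h9
      have hGm : G ∈ Ideal.span (insert G (Set.range fun j => C (b j) * X ^ N)) :=
        Ideal.subset_span (Set.mem_insert _ _)
      rw [hidl]
      obtain ⟨w, hw⟩ := hdvA (n + n)
      have h12 : f = G * (w * f) + ((C g * X * q') ^ n *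
          ((C g * X * q') ^ n * f - G * f')) + G * ((C g * X * q') ^ n * f') := by
        have h13 : f = (1 - (C g * X * q') ^ (n + n)) * f + (C g * X * q') ^ (n + n) * f := by
          ring
        calc f = (1 - (C g * X * q') ^ (n + n)) * f + (C g * X * q') ^ (n + n) * f := h13
          _ = G * w * f + (C g * X * q') ^ (n + n) * f := by rw [hw]
          _ = _ := by ring
      rw [h12]
      exact Ideal.add_mem _ (Ideal.add_mem _ (Ideal.mul_mem_right _ _ hGm) h8)
        (Ideal.mul_mem_right _ _ hGm)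
  · intro P
    obtain ⟨n₀, hn₀⟩ := hclaim P
    obtain ⟨f, hf⟩ := hn₀ n₀ le_rfl
    refine ⟨f, ?_⟩
    rw [hf]
    obtain ⟨w, hw⟩ := hdv n₀
    refine ⟨-(w * P), ?_⟩
    rw [mul_neg, ← mul_assoc, ← hw]
    ring

theorem hF3 (hE0 : StE0.{u}) : StF3.{u} := by
  intro L _ I k₀ a s b κ g hD p G q' hG N
  obtain ⟨hY, hb, hκ, hg, hgJ⟩ := hD
  obtain ⟨_, hPG, hG1⟩ := hG
  obtain ⟨_, _, _, _, he, _, hgg⟩ := hE0 L I k₀ a hY
  have hmk : ∀ (r : L) (k : ℕ), 1 - C r * X ^ k ∈ I →
      ((Ideal.Quotient.mk I).comp (C : L →+* L[X])) r * Ideal.Quotient.mk I X ^ k = 1 := by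
    intro r k hr
    rw [RingHom.comp_apply, ← map_pow, ← map_mul, ← map_one (Ideal.Quotient.mk I),
      Ideal.Quotient.eq]
    have := I.neg_mem hr
    rwa [neg_sub] at this
  exact abs_F3 (Phi I) ((Ideal.Quotient.mk I).comp (C : L →+* L[X])) (Ideal.Quotient.mk I X)
    (I.comap (C : L →+* L[X])) (fun r => by simp [Phi]) (by simp [Phi]) he hgg s b g k₀
    (aux_const _ _ k₀ a (fun k hk => hmk _ k (hY k hk)) κ g hκ (hmk g κ hg))
    (fun j => Ideal.Quotient.eq_zero_iff_mem.2 (hb j)) hgJ G q' hG1 N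

end Pool.Agent.Helper94.GU
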